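import Pool.Agent.K4H25.FH.Spec

set_option autoImplicit false

namespace Pool.Agent.K4H25.FH

open Finset Set

theorem p1_hd (c p y : ℝ) (h : 0 < y + c) :
    HasDerivAt (fun y : ℝ => (y + c) ^ p) (p * (y + c) ^ (p - 1)) y := by
  have h2 : HasDerivAt (fun y : ℝ => y + c) 1 y := (hasDerivAt_id y).add_const c
  exact (h2.rpow_const (p := p) (Or.inl h.ne')).congr_deriv (by ring)

noncomputable def p1d1 (p y : ℝ) : ℝ := (y + 1) ^ p - (y + 0) ^ p
noncomputable def p1d2 (p y : ℝ) : ℝ := (y + 2) ^ p - 2 * (y + 1) ^ p + (y + 0) ^ p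
noncomputable def p1d3 (p y : ℝ) : ℝ :=
  (y + 3) ^ p - 3 * (y + 2) ^ p + 3 * (y + 1) ^ p - (y + 0) ^ p

theorem p1_hd1 (p y : ℝ) (h : 0 < y) : HasDerivAt (p1d1 p) (p * p1d1 (p - 1) y) y := by
  have := (p1_hd 1 p y (by linarith)).sub (p1_hd 0 p y (by linarith))
  exact this.congr_deriv (by unfold p1d1; ring)

theorem p1_hd2 (p y : ℝ) (h : 0 < y) : HasDerivAt (p1d2 p) (p * p1d2 (p - 1) y) y := by
  have := ((p1_hd 2 p y (by linarith)).sub ((p1_hd 1 p y (by linarith)).const_mul 2)).add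
    (p1_hd 0 p y (by linarith))
  exact this.congr_deriv (by unfold p1d2; ring)

theorem p1_hd3 (p y : ℝ) (h : 0 < y) : HasDerivAt (p1d3 p) (p * p1d3 (p - 1) y) y := by
  have := (((p1_hd 3 p y (by linarith)).sub ((p1_hd 2 p y (by linarith)).const_mul 3)).add
    ((p1_hd 1 p y (by linarith)).const_mul 3)).sub (p1_hd 0 p y (by linarith))
  exact this.congr_deriv (by unfold p1d3; ring)

theorem p1_c2 {p : ℝ} (hp : 0 ≤ p) : Continuous (p1d2 p) := by
  unfold p1d2
  have h : ∀ c : ℝ, Continuous fun y : ℝ => (y + c) ^ p := fun c =>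
    (Real.continuous_rpow_const hp).comp (continuous_id.add continuous_const)
  exact ((h 2).sub ((h 1).const_smul 2 |>.congr (fun y => by simp [smul_eq_mul]))).add (h 0)

theorem p1_c3 {p : ℝ} (hp : 0 ≤ p) : Continuous (p1d3 p) := by
  unfold p1d3
  have h : ∀ c : ℝ, Continuous fun y : ℝ => (y + c) ^ p := fun c =>
    (Real.continuous_rpow_const hp).comp (continuous_id.add continuous_const)
  exact (((h 3).sub ((h 2).const_smul 3 |>.congr (fun y => by simp [smul_eq_mul]))).add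
    ((h 1).const_smul 3 |>.congr (fun y => by simp [smul_eq_mul]))).sub (h 0)

/-- second difference of `x ^ p`, `0 < p < 1` -/
theorem p1_d2_neg {p y : ℝ} (h0 : 0 < p) (h1 : p < 1) (hy : 0 ≤ y) : p1d2 p y < 0 := by
  have hy1 : y ∈ Set.Ici (0 : ℝ) := hy
  have hy2 : y + 2 ∈ Set.Ici (0 : ℝ) := by simp only [Set.mem_Ici]; linarith
  have hne : y ≠ y + 2 := by intro h; linarith
  have this := (Real.strictConcaveOn_rpow h0 h1).2 hy1 hy2 hne
    (by norm_num : (0 : ℝ) < 1 / 2) (by norm_num : (0 : ℝ) < 1 / 2) (by norm_num)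
  simp only [smul_eq_mul] at this
  have e : 1 / 2 * y + 1 / 2 * (y + 2) = y + 1 := by ring
  rw [e] at this
  unfold p1d2
  rw [add_zero]
  linarith

/-- second difference of `x ^ p`, `1 ≤ p` -/
theorem p1_d2_nonneg {p y : ℝ} (h1 : 1 ≤ p) (hy : 0 ≤ y) : 0 ≤ p1d2 p y := by
  have hy1 : y ∈ Set.Ici (0 : ℝ) := hy
  have hy2 : y + 2 ∈ Set.Ici (0 : ℝ) := by simp only [Set.mem_Ici]; linarith
  have this := (convexOn_rpow h1).2 hy1 hy2
    (by norm_num : (0 : ℝ) ≤ 1 / 2) (by norm_num : (0 : ℝ) ≤ 1 / 2) (by norm_num)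
  simp only [smul_eq_mul] at this
  have e : 1 / 2 * y + 1 / 2 * (y + 2) = y + 1 := by ring
  rw [e] at this
  unfold p1d2
  rw [add_zero]
  linarith

/-- third difference of `x ^ s`, `1 < s < 2` -/
theorem p1_d3_neg {s y : ℝ} (h1 : 1 < s) (h2 : s < 2) (hy : 0 ≤ y) : p1d3 s y < 0 := by
  have hanti : StrictAntiOn (p1d2 s) (Set.Ici 0) := by
    apply strictAntiOn_of_deriv_neg (convex_Ici 0) (p1_c2 (by linarith)).continuousOn
    intro x hx
    rw [interior_Ici, Set.mem_Ioi] at hx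
    rw [(p1_hd2 s x hx).deriv]
    exact mul_neg_of_pos_of_neg (by linarith) (p1_d2_neg (by linarith) (by linarith) hx.le)
  have := hanti (a := y) (b := y + 1) hy (by simp only [Set.mem_Ici]; linarith) (by linarith)
  have e : p1d3 s y = p1d2 s (y + 1) - p1d2 s y := by
    unfold p1d3 p1d2
    rw [show y + 1 + 2 = y + 3 by ring, show y + 1 + 1 = y + 2 by ring, show y + 1 + 0 = y + 1 by ring]
    ring
  linarith

theorem p1_d1_nonpos {p y : ℝ} (h : p ≤ 0) (hy : 0 < y) : p1d1 p y ≤ 0 := by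
  unfold p1d1
  rw [add_zero]
  have := Real.rpow_le_rpow_of_nonpos hy (show y ≤ y + 1 by linarith) h
  linarith

/-- second difference of `x ^ q`, `q ≤ 0` -/
theorem p1_d2_nonneg' {q y : ℝ} (h : q ≤ 0) (hy : 0 < y) : 0 ≤ p1d2 q y := by
  have hmono : MonotoneOn (p1d1 q) (Set.Ioi 0) := by
    apply monotoneOn_of_deriv_nonneg (convex_Ioi 0)
    · intro x hx
      exact (p1_hd1 q x hx).continuousAt.continuousWithinAt
    · intro x hx
      rw [interior_Ioi] at hx
      exact (p1_hd1 q x hx).differentiableAt.differentiableWithinAt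
    · intro x hx
      rw [interior_Ioi] at hx
      rw [(p1_hd1 q x hx).deriv]
      exact mul_nonneg_of_nonpos_of_nonpos h (p1_d1_nonpos (by linarith) hx)
  have := hmono (a := y) (b := y + 1) hy (by simp only [Set.mem_Ioi]; linarith) (by linarith)
  have e : p1d2 q y = p1d1 q (y + 1) - p1d1 q y := by
    unfold p1d2 p1d1
    rw [show y + 1 + 1 = y + 2 by ring, show y + 1 + 0 = y + 1 by ring]
    ring
  linarith

/-- third difference of `x ^ p`, `0 < p < 1` -/
theorem p1_d3_nonneg {p y : ℝ} (h0 : 0 < p) (h1 : p < 1) (hy : 0 < y) : 0 ≤ p1d3 p y := by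
  have hmono : MonotoneOn (p1d2 p) (Set.Ioi 0) := by
    apply monotoneOn_of_deriv_nonneg (convex_Ioi 0)
    · intro x hx
      exact (p1_hd2 p x hx).continuousAt.continuousWithinAt
    · intro x hx
      rw [interior_Ioi] at hx
      exact (p1_hd2 p x hx).differentiableAt.differentiableWithinAt
    · intro x hx
      rw [interior_Ioi] at hx
      rw [(p1_hd2 p x hx).deriv]
      exact mul_nonneg h0.le (p1_d2_nonneg' (by linarith) hx)
  have := hmono (a := y) (b := y + 1) hy (by simp only [Set.mem_Ioi]; linarith) (by linarith)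
  have e : p1d3 p y = p1d2 p (y + 1) - p1d2 p y := by
    unfold p1d3 p1d2
    rw [show y + 1 + 2 = y + 3 by ring, show y + 1 + 1 = y + 2 by ring, show y + 1 + 0 = y + 1 by ring]
    ring
  linarith

/-- the third difference of `x ^ s` is monotone, `1 < s < 2` -/
theorem p1_d3_mono {s y : ℝ} (h1 : 1 < s) (h2 : s < 2) (hy : 0 ≤ y) :
    p1d3 s y ≤ p1d3 s (y + 1) := by
  have hmono : MonotoneOn (p1d3 s) (Set.Ici 0) := by
    apply monotoneOn_of_deriv_nonneg (convex_Ici 0) (p1_c3 (by linarith)).continuousOn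
    · intro x hx
      rw [interior_Ici] at hx
      exact (p1_hd3 s x hx).differentiableAt.differentiableWithinAt
    · intro x hx
      rw [interior_Ici] at hx
      rw [(p1_hd3 s x hx).deriv]
      exact mul_nonneg (by linarith) (p1_d3_nonneg (by linarith) (by linarith) hx)
  exact hmono hy (by simp only [Set.mem_Ici]; linarith) (by linarith)

theorem p1_gam_neg (H : ℝ) (j : ℤ) : gam H (-j) = gam H j := by
  unfold gam
  push_cast
  rw [show (-(j : ℝ)) + 1 = -((j : ℝ) - 1) by ring, show (-(j : ℝ)) - 1 = -((j : ℝ) + 1) by ring,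
    abs_neg, abs_neg, abs_neg]
  ring

theorem p1_gam_succ (H : ℝ) (n : ℕ) : gam H ((n : ℤ) + 1) = p1d2 (2 * H) n / 2 := by
  unfold gam p1d2
  push_cast
  have h0 : (0 : ℝ) ≤ n := Nat.cast_nonneg n
  rw [show (n : ℝ) + 1 + 1 = n + 2 by ring, show (n : ℝ) + 1 - 1 = n by ring,
    abs_of_nonneg (by linarith : (0 : ℝ) ≤ n + 2), abs_of_nonneg (by linarith : (0 : ℝ) ≤ (n : ℝ) + 1),
    abs_of_nonneg h0, add_zero]

theorem p1_gam_zero {H : ℝ} (h : 1 / 2 < H) : gam H 0 = 1 := by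
  unfold gam
  have : (0 : ℝ) ^ (2 * H) = 0 := Real.zero_rpow (by linarith)
  simp [this]

theorem p1_gam_one (H : ℝ) (h : 1 / 2 < H) : gam H 1 = ((2 : ℝ) ^ (2 * H) - 2) / 2 := by
  have := p1_gam_succ H 0
  simp only [Nat.cast_zero, zero_add] at this
  rw [this]
  unfold p1d2
  have h0 : (0 : ℝ) ^ (2 * H) = 0 := Real.zero_rpow (by linarith)
  simp [h0]

theorem p1_phi_succ (H : ℝ) (n : ℕ) : phi H (n + 1) = - p1d3 (2 * H) n / 2 := by
  unfold phi
  have h1 := p1_gam_succ H n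
  have h2 := p1_gam_succ H (n + 1)
  push_cast at h1 h2 ⊢
  rw [h1, h2]
  unfold p1d3 p1d2
  rw [show (n : ℝ) + 1 + 2 = n + 3 by ring, show (n : ℝ) + 1 + 1 = n + 2 by ring,
    show (n : ℝ) + 1 + 0 = n + 1 by ring]
  ring

theorem p1_phi_zero {H : ℝ} (h : 1 / 2 < H) : phi H 0 = 2 - (2 : ℝ) ^ (2 * H) / 2 := by
  unfold phi
  have h1 := p1_gam_zero h
  have h2 := p1_gam_one H h
  have e1 : (((0 : ℕ) : ℤ) + 1) = 1 := by norm_num
  have e0 : ((0 : ℕ) : ℤ) = 0 := by norm_num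
  rw [e1, e0, h1, h2]
  ring

theorem phi_pos {H : ℝ} (h : 1 / 2 < H) (h1 : H < 1) (n : ℕ) : 0 < phi H n := by
  rcases n with _ | n
  · rw [p1_phi_zero h]
    have : (2 : ℝ) ^ (2 * H) < 2 ^ (2 : ℝ) :=
      Real.rpow_lt_rpow_of_exponent_lt (by norm_num) (by linarith)
    have e : (2 : ℝ) ^ (2 : ℝ) = 4 := by
      rw [show (2 : ℝ) = ((2 : ℕ) : ℝ) by norm_num, Real.rpow_natCast]; norm_num
    rw [e] at this
    linarith
  · rw [p1_phi_succ]
    have := p1_d3_neg (s := 2 * H) (y := n) (by linarith) (by linarith) (Nat.cast_nonneg n)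
    linarith

theorem p1_dlt_neg (H : ℝ) (j : ℤ) : dlt H (-j) = dlt H j := by
  unfold dlt
  rw [p1_gam_neg, show -j + 1 = -(j - 1) by ring, show -j - 1 = -(j + 1) by ring,
    p1_gam_neg, p1_gam_neg]
  ring

theorem p1_dlt_succ (H : ℝ) (n : ℕ) : dlt H ((n : ℤ) + 1) = phi H (n + 1) - phi H n := by
  unfold dlt phi
  push_cast
  rw [show (n : ℤ) + 1 - 1 = n by ring]
  ring

theorem dlt_one_neg {H : ℝ} (h : 1 / 2 < H) (h1 : H < 1) : dlt H 1 < 0 := by
  have e1 := p1_dlt_succ H 0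
  simp only [Nat.cast_zero, zero_add] at e1
  rw [e1, p1_phi_zero h]
  have e2 := p1_phi_succ H 0
  simp only [zero_add, Nat.cast_zero] at e2
  rw [e2]
  unfold p1d3
  have h0 : (0 : ℝ) ^ (2 * H) = 0 := Real.zero_rpow (by linarith)
  simp only [zero_add, Real.one_rpow, add_zero, h0]
  -- 3 ^ s + 7 > 4 * 2 ^ s
  set s : ℝ := 2 * H with hs
  have hs2 : s < 2 := by linarith
  have e3 : (3 : ℝ) ^ s = 9 * Real.exp ((s - 2) * Real.log 3) := by
    rw [Real.rpow_def_of_pos (by norm_num : (0 : ℝ) < 3),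
      show Real.log 3 * s = (s - 2) * Real.log 3 + (Real.log 3 + Real.log 3) by ring,
      Real.exp_add, Real.exp_add, Real.exp_log (by norm_num : (0 : ℝ) < 3)]
    ring
  have e4 : (2 : ℝ) ^ s = 4 * Real.exp ((s - 2) * Real.log 2) := by
    rw [Real.rpow_def_of_pos (by norm_num : (0 : ℝ) < 2),
      show Real.log 2 * s = (s - 2) * Real.log 2 + (Real.log 2 + Real.log 2) by ring,
      Real.exp_add, Real.exp_add, Real.exp_log (by norm_num : (0 : ℝ) < 2)]
    ring
  have E2 : 0 < Real.exp ((s - 2) * Real.log 2) := Real.exp_pos _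
  have f1 : Real.exp ((s - 2) * Real.log 3)
      = Real.exp ((s - 2) * Real.log 2) * Real.exp ((s - 2) * (Real.log 3 - Real.log 2)) := by
    rw [← Real.exp_add]; congr 1; ring
  have f2 : (1 : ℝ) = Real.exp ((s - 2) * Real.log 2) * Real.exp (-((s - 2) * Real.log 2)) := by
    rw [← Real.exp_add]; simp
  have g1 := Real.add_one_le_exp ((s - 2) * (Real.log 3 - Real.log 2))
  have g2 := Real.add_one_le_exp (-((s - 2) * Real.log 2))
  have hl : 9 * (Real.log 3 - Real.log 2) < 7 * Real.log 2 := by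
    have a1 : 9 * Real.log 3 = Real.log (3 ^ 9) := by
      rw [Real.log_pow]; norm_num
    have a2 : 16 * Real.log 2 = Real.log (2 ^ 16) := by
      rw [Real.log_pow]; norm_num
    have a3 : Real.log (3 ^ 9) < Real.log (2 ^ 16) :=
      Real.log_lt_log (by norm_num) (by norm_num)
    linarith
  have g3 : 16 < 9 * Real.exp ((s - 2) * (Real.log 3 - Real.log 2))
      + 7 * Real.exp (-((s - 2) * Real.log 2)) := by
    nlinarith
  have g4 : 16 * Real.exp ((s - 2) * Real.log 2) < (3 : ℝ) ^ s + 7 := by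
    rw [e3, f1]
    nlinarith
  rw [e4]
  rw [e4] at *
  linarith

theorem dlt_nonpos {H : ℝ} (h : 1 / 2 < H) (h1 : H < 1) {j : ℤ} (hj : j ≠ 0) : dlt H j ≤ 0 := by
  have main : ∀ n : ℕ, dlt H ((n : ℤ) + 1) ≤ 0 := by
    intro n
    rcases n with _ | n
    · simpa using (dlt_one_neg h h1).le
    · rw [p1_dlt_succ, p1_phi_succ, p1_phi_succ]
      have := p1_d3_mono (s := 2 * H) (y := n) (by linarith) (by linarith) (Nat.cast_nonneg n)
      push_cast
      linarith
  rcases lt_or_gt_of_ne hj with hj | hj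
  · obtain ⟨n, hn⟩ := Int.eq_ofNat_of_zero_le (show 0 ≤ -j - 1 by omega)
    have : j = -((n : ℤ) + 1) := by omega
    rw [this, p1_dlt_neg]
    exact main n
  · obtain ⟨n, hn⟩ := Int.eq_ofNat_of_zero_le (show 0 ≤ j - 1 by omega)
    have : j = (n : ℤ) + 1 := by omega
    rw [this]
    exact main n

theorem gam_nonneg {H : ℝ} (h : 1 / 2 < H) (h1 : H < 1) (j : ℤ) : 0 ≤ gam H j := by
  have main : ∀ n : ℕ, 0 ≤ gam H ((n : ℤ) + 1) := by
    intro n
    rw [p1_gam_succ]
    have := p1_d2_nonneg (p := 2 * H) (y := n) (by linarith) (Nat.cast_nonneg n)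
    linarith
  rcases lt_trichotomy j 0 with hj | hj | hj
  · obtain ⟨n, hn⟩ := Int.eq_ofNat_of_zero_le (show 0 ≤ -j - 1 by omega)
    have : j = -((n : ℤ) + 1) := by omega
    rw [this, p1_gam_neg]
    exact main n
  · rw [hj, p1_gam_zero h]; norm_num
  · obtain ⟨n, hn⟩ := Int.eq_ofNat_of_zero_le (show 0 ≤ j - 1 by omega)
    have : j = (n : ℤ) + 1 := by omega
    rw [this]
    exact main n

theorem row {H : ℝ} (i n : ℕ) :
    ∑ m ∈ range (i + n + 1), dlt H ((i : ℤ) - (m : ℤ)) = phi H i + phi H n := by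
  have e : ∀ m ∈ range (i + n + 1), dlt H ((i : ℤ) - (m : ℤ))
      = (fun m : ℕ => gam H ((i : ℤ) - m) - gam H ((i : ℤ) - m + 1)) m
        - (fun m : ℕ => gam H ((i : ℤ) - m) - gam H ((i : ℤ) - m + 1)) (m + 1) := by
    intro m _
    simp only [dlt]
    push_cast
    rw [show (i : ℤ) - (m + 1) + 1 = i - m by ring, show (i : ℤ) - (m + 1) = i - m - 1 by ring]
    ring
  rw [Finset.sum_congr rfl e, Finset.sum_range_sub']
  simp only [phi]
  push_cast
  rw [show (i : ℤ) - (i + n + 1) + 1 = -(n : ℤ) by ring,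
    show (i : ℤ) - (i + n + 1) = -((n : ℤ) + 1) by ring, p1_gam_neg, p1_gam_neg]
  simp only [sub_zero]
  ring

end Pool.Agent.K4H25.FH
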