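import Mathlib

/-!
The Kronecker character of a fundamental discriminant of either sign, and Gauss sums of
primitive quadratic characters.
-/

set_option autoImplicit false

open scoped NumberTheorySymbols
open Finset

namespace Pool.Agent.K4H4.Kron

/-- Fundamental discriminants different from `1`: the discriminants of the quadratic extensions
of the rationals. -/
def IsFund (D : ℤ) : Prop :=
  D ≠ 1 ∧ ((D % 4 = 1 ∧ Squarefree D) ∨
    ∃ m : ℤ, D = 4 * m ∧ (m % 4 = 2 ∨ m % 4 = 3) ∧ Squarefree m)

/-- The Kronecker symbol of `D` at `2`, for `D` congruent to `0` or `1` modulo `4`. -/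
def kron2 (D : ℤ) : ℤ := if D % 8 = 1 then 1 else if D % 8 = 5 then -1 else 0

/-- The Kronecker symbol `(D/n)` for `n ≥ 0` (with `(D/0) = 0`). -/
def kron (D : ℤ) (n : ℕ) : ℤ :=
  if n = 0 then 0
  else kron2 D ^ (n.factorization 2) * jacobiSym D (n / 2 ^ n.factorization 2)

/-- A completely multiplicative function which comes from a character modulo `N`. -/
structure Good (N : ℕ) (f : ℕ → ℤ) : Prop where
  one : f 1 = 1
  mul : ∀ a b, f (a * b) = f a * f b
  per : ∀ a, f (a % N) = f a
  zero : ∀ a, ¬ Nat.Coprime a N → f a = 0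

/-- The Dirichlet character attached to a good function. -/
noncomputable def mkChar {N : ℕ} [NeZero N] {f : ℕ → ℤ} (h : Good N f) :
    DirichletCharacter ℂ N where
  toFun a := (f a.val : ℂ)
  map_one' := by
    by_cases hN : N = 1
    · subst hN
      have h1 : f (1 % 1) = f 1 := h.per 1
      have h2 : (1 : ZMod 1).val = 1 % 1 := by decide
      rw [h2, h1, h.one]; simp
    · rw [ZMod.val_one'' hN, h.one]; simp
  map_mul' a b := by
    rw [ZMod.val_mul, h.per, h.mul]
    push_cast; rfl
  map_nonunit' a ha := by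
    change ((f a.val : ℤ) : ℂ) = 0
    rw [h.zero, Int.cast_zero]
    intro hc
    apply ha
    rw [← ZMod.natCast_zmod_val a]
    exact (ZMod.isUnit_iff_coprime _ _).mpr hc

theorem mkChar_natCast {N : ℕ} [NeZero N] {f : ℕ → ℤ} (h : Good N f) (n : ℕ) :
    mkChar h (n : ZMod N) = (f n : ℂ) := by
  change ((f (n : ZMod N).val : ℤ) : ℂ) = _
  rw [ZMod.val_natCast, h.per]

theorem good_jac {K : ℕ} (hK : K ≠ 0) : Good K (fun n => jacobiSym n K) where
  one := by simp [jacobiSym.one_left]
  mul a b := by push_cast; exact jacobiSym.mul_left _ _ _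
  per a := by
    push_cast
    exact (jacobiSym.mod_left (a : ℤ) K).symm
  zero a ha := by
    rw [jacobiSym.eq_zero_iff]
    refine ⟨hK, ?_⟩
    rwa [Int.gcd_natCast_natCast]

theorem good_chi4 : Good 4 (fun n => ZMod.χ₄ (n : ZMod 4)) where
  one := by decide
  mul a b := by push_cast; exact map_mul _ _ _
  per a := by rw [ZMod.natCast_mod]
  zero a ha := by
    apply ZMod.χ₄.map_nonunit
    rwa [ZMod.isUnit_iff_coprime]

theorem good_chi8 : Good 8 (fun n => ZMod.χ₈ (n : ZMod 8)) where
  one := by decide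
  mul a b := by push_cast; exact map_mul _ _ _
  per a := by rw [ZMod.natCast_mod]
  zero a ha := by
    apply ZMod.χ₈.map_nonunit
    rwa [ZMod.isUnit_iff_coprime]

theorem good_chi8' : Good 8 (fun n => ZMod.χ₈' (n : ZMod 8)) where
  one := by decide
  mul a b := by push_cast; exact map_mul _ _ _
  per a := by rw [ZMod.natCast_mod]
  zero a ha := by
    apply ZMod.χ₈'.map_nonunit
    rwa [ZMod.isUnit_iff_coprime]

theorem Good.prod {N M : ℕ} {f g : ℕ → ℤ} (hf : Good N f) (hg : Good M g) :
    Good (N * M) (fun n => f n * g n) where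
  one := by simp [hf.one, hg.one]
  mul a b := by
    simp only [hf.mul, hg.mul]; ring
  per a := by
    have h1 : f (a % (N * M)) = f a := by
      rw [← hf.per (a % (N * M)), Nat.mod_mul_right_mod, hf.per]
    have h2 : g (a % (N * M)) = g a := by
      rw [← hg.per (a % (N * M)), Nat.mod_mul_left_mod, hg.per]
    simp only [h1, h2]
  zero a ha := by
    rw [Nat.coprime_mul_iff_right, not_and_or] at ha
    rcases ha with h | h
    · simp only [hf.zero a h, zero_mul]
    · simp only [hg.zero a h, mul_zero]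

/-- A good function which agrees with the Kronecker symbol at `2` and at odd numbers is the
Kronecker symbol. -/
theorem kron_eq {N : ℕ} {f : ℕ → ℤ} (h : Good N f) (hN : 1 < N) (D : ℤ)
    (h2 : f 2 = kron2 D) (hodd : ∀ n, Odd n → f n = jacobiSym D n) (n : ℕ) :
    kron D n = f n := by
  unfold kron
  by_cases hn : n = 0
  · subst hn
    rw [if_pos rfl, h.zero 0]
    rw [Nat.coprime_zero_left]; omega
  · rw [if_neg hn]
    have h3 : f n = f (2 ^ n.factorization 2 * (n / 2 ^ n.factorization 2)) := by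
      rw [Nat.ordProj_mul_ordCompl_eq_self]
    have hpow : ∀ k : ℕ, f (2 ^ k) = kron2 D ^ k := by
      intro k
      induction k with
      | zero => simp [h.one]
      | succ k ih => rw [pow_succ, h.mul, ih, h2, pow_succ]
    rw [h3, h.mul, hpow, ← hodd]
    have := Nat.coprime_ordCompl Nat.prime_two hn
    rw [Nat.coprime_two_left] at this
    exact this

/-- `D ≡ 1 mod 4`: the symbol `(D/n)` for odd `n` is `(n / |D|)`. -/
theorem jac_flip {D : ℤ} (hD : D % 4 = 1) {n : ℕ} (hn : Odd n) :
    jacobiSym D n = jacobiSym n D.natAbs := by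
  rcases le_or_gt 0 D with h | h
  · have h1 : D = (D.natAbs : ℤ) := by omega
    have h2 : D.natAbs % 4 = 1 := by omega
    rw [h1, Int.natAbs_natCast]
    exact jacobiSym.quadratic_reciprocity_one_mod_four h2 hn
  · have h1 : D = -(D.natAbs : ℤ) := by omega
    have h2 : D.natAbs % 4 = 3 := by omega
    have h3 : jacobiSym D n = jacobiSym (-(D.natAbs : ℤ)) n := by rw [← h1]
    rw [h3, jacobiSym.neg _ hn]
    have h4 : n % 4 = 1 ∨ n % 4 = 3 := by
      obtain ⟨k, rfl⟩ := hn; omega
    rcases h4 with h4 | h4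
    · rw [ZMod.χ₄_nat_one_mod_four h4, one_mul]
      exact jacobiSym.quadratic_reciprocity_one_mod_four' (by rw [Nat.odd_iff]; omega) h4
    · rw [ZMod.χ₄_nat_three_mod_four h4]
      rw [jacobiSym.quadratic_reciprocity_three_mod_four h2 h4]
      ring

theorem two_case {D : ℤ} (hD : D % 4 = 1) : jacobiSym (2 : ℕ) D.natAbs = kron2 D := by
  have hodd : Odd D.natAbs := by rw [Nat.odd_iff]; omega
  have : ((2 : ℕ) : ℤ) = 2 := rfl
  rw [this, jacobiSym.at_two hodd, ZMod.χ₈_nat_eq_if_mod_eight]
  unfold kron2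
  have h1 : ¬ D.natAbs % 2 = 0 := by omega
  rw [if_neg h1]
  rcases le_or_gt 0 D with h | h
  · by_cases h8 : D % 8 = 1
    · rw [if_pos h8, if_pos (by omega)]
    · have h5 : D % 8 = 5 := by omega
      rw [if_neg h8, if_pos h5, if_neg (by omega)]
  · by_cases h8 : D % 8 = 1
    · rw [if_pos h8, if_pos (by omega)]
    · have h5 : D % 8 = 5 := by omega
      rw [if_neg h8, if_pos h5, if_neg (by omega)]


theorem jac_neg_one {K n : ℕ} (hK : Odd K) (h : K ∣ n + 1) : jacobiSym n K = ZMod.χ₄ K := by
  rw [← jacobiSym.at_neg_one hK]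
  apply jacobiSym.mod_left'
  have : (K : ℤ) ∣ (n : ℤ) - (-1) := by
    have : ((n : ℤ) - (-1)) = ((n + 1 : ℕ) : ℤ) := by push_cast; ring
    rw [this]; exact_mod_cast h
  exact Int.emod_eq_emod_iff_emod_sub_eq_zero.mpr (Int.emod_eq_zero_of_dvd this)

/-- The description of the Kronecker character of a fundamental discriminant: `|D| = c K` with `K`
odd and squarefree and `c` one of `1, 4, 8`. -/
theorem data {D : ℤ} (hD : IsFund D) : ∃ (c K : ℕ) (g : ℕ → ℤ), D.natAbs = c * K ∧ Odd K ∧
    Squarefree K ∧ Good c g ∧ (c = 1 ∨ c = 4 ∨ c = 8) ∧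
    (c ≠ 1 → ∀ n, n % c = 1 + c / 2 → g n = -1) ∧
    (∀ n, kron D n = g n * jacobiSym n K) ∧ 1 < c * K ∧
    (∀ n, c * K ∣ n + 1 → g n * jacobiSym n K = D.sign) := by
  obtain ⟨h1, ⟨h2, h3⟩ | ⟨m, h2, h3 | h3, h4⟩⟩ := hD
  · -- odd case
    have hodd : Odd D.natAbs := by rw [Nat.odd_iff]; omega
    have hsq : Squarefree D.natAbs := Int.squarefree_natAbs.mpr h3
    have hN : 1 < D.natAbs := by
      have : D.natAbs ≠ 0 := by omega
      have : D.natAbs ≠ 1 := by omega
      omega
    have hg1 : Good 1 (fun _ => (1 : ℤ)) :=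
      ⟨rfl, fun _ _ => rfl, fun _ => rfl, fun a ha => absurd (Nat.coprime_one_right a) ha⟩
    refine ⟨1, D.natAbs, fun _ => 1, (one_mul _).symm, hodd, hsq, hg1, Or.inl rfl,
      fun h => absurd rfl h, ?_, by omega, ?_⟩
    · intro n
      rw [one_mul]
      refine kron_eq (good_jac (by omega)) hN D (two_case h2) ?_ n
      intro k hk
      exact (jac_flip h2 hk).symm
    · intro n hn
      rw [one_mul] at hn ⊢
      rw [jac_neg_one hodd hn]
      rcases lt_or_ge D 0 with h | h
      · rw [Int.sign_eq_neg_one_of_neg h, ZMod.χ₄_nat_three_mod_four (by omega)]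
      · rw [Int.sign_eq_one_of_pos (by omega), ZMod.χ₄_nat_one_mod_four (by omega)]
  · -- D = 8 k
    obtain ⟨k, rfl⟩ : ∃ k, m = 2 * k := ⟨m / 2, by omega⟩
    have hk2 : k % 2 = 1 := by omega
    have hodd : Odd k.natAbs := by rw [Nat.odd_iff]; omega
    have hsq : Squarefree k.natAbs :=
      Int.squarefree_natAbs.mpr (h4.squarefree_of_dvd (Dvd.intro_left 2 rfl))
    have hNK : D.natAbs = 8 * k.natAbs := by omega
    have hK0 : k.natAbs ≠ 0 := by omega
    have hN : 1 < 8 * k.natAbs := by omega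
    have hD8 : kron2 D = 0 := by
      unfold kron2
      rw [if_neg (by omega), if_neg (by omega)]
    have hJ : ∀ n, Odd n → jacobiSym D n = ZMod.χ₈ (n : ZMod 8) * jacobiSym k n := by
      intro n hn
      have : D = 4 * (2 * k) := h2
      rw [this, jacobiSym.mul_left, jacobiSym.mul_left, jacobiSym.at_four hn, jacobiSym.at_two hn,
        one_mul]
    have hk4 : k % 4 = 1 ∨ k % 4 = 3 := by omega
    rcases hk4 with hk | hk
    · have hgood := good_chi8.prod (good_jac hK0)
      refine ⟨8, k.natAbs, fun n => ZMod.χ₈ (n : ZMod 8), hNK, hodd, hsq, good_chi8,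
        Or.inr (Or.inr rfl), ?_, ?_, hN, ?_⟩
      · intro _ n hn
        have : (n : ZMod 8) = ((n % 8 : ℕ) : ZMod 8) := by rw [ZMod.natCast_mod]
        simp only [this, hn]; decide
      · intro n
        refine kron_eq hgood hN D ?_ ?_ n
        · rw [hD8]
          have : ZMod.χ₈ ((2 : ℕ) : ZMod 8) = 0 := by decide
          simp only [this, zero_mul]
        · intro n hn
          rw [hJ n hn, jac_flip hk hn]
      · intro n hn
        have h8 : 8 ∣ n + 1 := (Dvd.intro _ rfl).trans hn
        have hKd : k.natAbs ∣ n + 1 := (Dvd.intro_left _ rfl).trans hn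
        have : (n : ZMod 8) = ((n % 8 : ℕ) : ZMod 8) := by rw [ZMod.natCast_mod]
        have h7 : n % 8 = 7 := by omega
        simp only [this, h7]
        have : ZMod.χ₈ ((7 : ℕ) : ZMod 8) = 1 := by decide
        rw [this, one_mul, jac_neg_one hodd hKd]
        rcases lt_or_ge D 0 with h | h
        · rw [Int.sign_eq_neg_one_of_neg h, ZMod.χ₄_nat_three_mod_four (by omega)]
        · rw [Int.sign_eq_one_of_pos (by omega), ZMod.χ₄_nat_one_mod_four (by omega)]
    · have hgood := good_chi8'.prod (good_jac hK0)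
      refine ⟨8, k.natAbs, fun n => ZMod.χ₈' (n : ZMod 8), hNK, hodd, hsq, good_chi8',
        Or.inr (Or.inr rfl), ?_, ?_, hN, ?_⟩
      · intro _ n hn
        have : (n : ZMod 8) = ((n % 8 : ℕ) : ZMod 8) := by rw [ZMod.natCast_mod]
        simp only [this, hn]; decide
      · intro n
        refine kron_eq hgood hN D ?_ ?_ n
        · rw [hD8]
          have : ZMod.χ₈' ((2 : ℕ) : ZMod 8) = 0 := by decide
          simp only [this, zero_mul]
        · intro n hn
          rw [hJ n hn]
          have h5 : jacobiSym k n = ZMod.χ₄ n * jacobiSym (-k) n := by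
            rw [← jacobiSym.neg _ hn, neg_neg]
          rw [h5, jac_flip (D := -k) (by omega) hn, Int.natAbs_neg]
          have h6 := ZMod.χ₈'_int_eq_χ₄_mul_χ₈ (n : ℤ)
          push_cast at h6
          rw [h6]; ring
      · intro n hn
        have h8 : 8 ∣ n + 1 := (Dvd.intro _ rfl).trans hn
        have hKd : k.natAbs ∣ n + 1 := (Dvd.intro_left _ rfl).trans hn
        have : (n : ZMod 8) = ((n % 8 : ℕ) : ZMod 8) := by rw [ZMod.natCast_mod]
        have h7 : n % 8 = 7 := by omega
        simp only [this, h7]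
        have : ZMod.χ₈' ((7 : ℕ) : ZMod 8) = -1 := by decide
        rw [this, jac_neg_one hodd hKd]
        rcases lt_or_ge D 0 with h | h
        · rw [Int.sign_eq_neg_one_of_neg h, ZMod.χ₄_nat_one_mod_four (by omega)]; ring
        · rw [Int.sign_eq_one_of_pos (by omega), ZMod.χ₄_nat_three_mod_four (by omega)]; ring
  · -- D = 4 m, m ≡ 3 mod 4
    have hodd : Odd m.natAbs := by rw [Nat.odd_iff]; omega
    have hsq : Squarefree m.natAbs := Int.squarefree_natAbs.mpr h4
    have hNK : D.natAbs = 4 * m.natAbs := by omega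
    have hK0 : m.natAbs ≠ 0 := by omega
    have hN : 1 < 4 * m.natAbs := by omega
    have hD8 : kron2 D = 0 := by
      unfold kron2
      rw [if_neg (by omega), if_neg (by omega)]
    have hgood := good_chi4.prod (good_jac hK0)
    refine ⟨4, m.natAbs, fun n => ZMod.χ₄ (n : ZMod 4), hNK, hodd, hsq, good_chi4,
      Or.inr (Or.inl rfl), ?_, ?_, hN, ?_⟩
    · intro _ n hn
      have : (n : ZMod 4) = ((n % 4 : ℕ) : ZMod 4) := by rw [ZMod.natCast_mod]
      simp only [this, hn]; decide
    · intro n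
      refine kron_eq hgood hN D ?_ ?_ n
      · rw [hD8]
        have : ZMod.χ₄ ((2 : ℕ) : ZMod 4) = 0 := by decide
        simp only [this, zero_mul]
      · intro n hn
        rw [h2, jacobiSym.mul_left, jacobiSym.at_four hn, one_mul]
        have h5 : jacobiSym m n = ZMod.χ₄ n * jacobiSym (-m) n := by
          rw [← jacobiSym.neg _ hn, neg_neg]
        rw [h5, jac_flip (D := -m) (by omega) hn, Int.natAbs_neg]
    · intro n hn
      have h8 : 4 ∣ n + 1 := (Dvd.intro _ rfl).trans hn
      have hKd : m.natAbs ∣ n + 1 := (Dvd.intro_left _ rfl).trans hn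
      have : (n : ZMod 4) = ((n % 4 : ℕ) : ZMod 4) := by rw [ZMod.natCast_mod]
      have h7 : n % 4 = 3 := by omega
      simp only [this, h7]
      have : ZMod.χ₄ ((3 : ℕ) : ZMod 4) = -1 := by decide
      rw [this, jac_neg_one hodd hKd]
      rcases lt_or_ge D 0 with h | h
      · rw [Int.sign_eq_neg_one_of_neg h, ZMod.χ₄_nat_one_mod_four (by omega)]; ring
      · rw [Int.sign_eq_one_of_pos (by omega), ZMod.χ₄_nat_three_mod_four (by omega)]; ring


theorem good_kron {D : ℤ} (hD : IsFund D) : Good D.natAbs (kron D) := by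
  obtain ⟨c, K, g, h1, h2, h3, h4, h5, h6, h7, h8, h9⟩ := data hD
  have hK : K ≠ 0 := h3.ne_zero
  have h := h4.prod (good_jac hK)
  rw [← h1] at h
  have : kron D = fun n : ℕ => g n * jacobiSym n K := funext h7
  rw [this]
  exact h

instance neZero_natAbs (D : ℤ) [h : Fact (IsFund D)] : NeZero D.natAbs := by
  refine ⟨?_⟩
  obtain ⟨c, K, g, h1, h2, h3, h4, h5, h6, h7, h8, h9⟩ := data h.out
  omega

/-- The Kronecker character of a fundamental discriminant `D`, a Dirichlet character of
level `|D|`. -/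
noncomputable def chi (D : ℤ) [h : Fact (IsFund D)] : DirichletCharacter ℂ D.natAbs :=
  mkChar (good_kron h.out)

theorem chi_natCast (D : ℤ) [h : Fact (IsFund D)] (n : ℕ) :
    chi D (n : ZMod D.natAbs) = (kron D n : ℂ) := mkChar_natCast _ n

theorem kron_trichotomy (D : ℤ) (n : ℕ) :
    kron D n = 0 ∨ kron D n = 1 ∨ kron D n = -1 := by
  unfold kron
  split_ifs with h
  · exact Or.inl rfl
  · have h1 := jacobiSym.trichotomy D (n / 2 ^ n.factorization 2)
    have h2 : kron2 D ^ (n.factorization 2) = 0 ∨ kron2 D ^ (n.factorization 2) = 1 ∨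
        kron2 D ^ (n.factorization 2) = -1 := by
      unfold kron2
      split_ifs
      · right; left; exact one_pow _
      · rcases neg_one_pow_eq_or ℤ (n.factorization 2) with h | h <;> simp [h]
      · by_cases h0 : n.factorization 2 = 0
        · right; left; rw [h0, pow_zero]
        · left; exact zero_pow h0
    rcases h1 with h1 | h1 | h1 <;> rcases h2 with h2 | h2 | h2 <;> simp [h1, h2]

theorem chi_real (D : ℤ) [h : Fact (IsFund D)] (a : ZMod D.natAbs) :
    chi D a = 0 ∨ chi D a = 1 ∨ chi D a = -1 := by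
  rw [← ZMod.natCast_zmod_val a, chi_natCast]
  rcases kron_trichotomy D a.val with h | h | h <;> simp [h]

theorem chi_inv (D : ℤ) [h : Fact (IsFund D)] : (chi D)⁻¹ = chi D := by
  ext a
  rw [MulChar.inv_apply_eq_inv]
  rcases chi_real D (a : ZMod D.natAbs) with h | h | h <;> simp [h]

theorem chi_mul_self (D : ℤ) [h : Fact (IsFund D)] : chi D * chi D = 1 := by
  nth_rewrite 1 [← chi_inv D]
  exact inv_mul_cancel _

theorem chi_neg_one (D : ℤ) [h : Fact (IsFund D)] : chi D (-1) = (D.sign : ℂ) := by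
  obtain ⟨c, K, g, h1, h2, h3, h4, h5, h6, h7, h8, h9⟩ := data h.out
  have h10 : (-1 : ZMod D.natAbs) = ((D.natAbs - 1 : ℕ) : ZMod D.natAbs) := by
    have : D.natAbs ≠ 0 := by omega
    rw [Nat.cast_sub (by omega)]
    simp
  rw [h10, chi_natCast, h7, h9]
  rw [h1]
  have : c * K - 1 + 1 = c * K := by omega
  rw [this]

/-- The witness for primitivity. -/
theorem exists_witness {D : ℤ} (hD : IsFund D) {p : ℕ} (hp : p.Prime) (hpD : p ∣ D.natAbs) :
    ∃ n : ℕ, n % (D.natAbs / p) = 1 % (D.natAbs / p) ∧ kron D n = -1 := by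
  obtain ⟨c, K, g, h1, h2, h3, h4, h5, h6, h7, h8, h9⟩ := data hD
  have hK : K ≠ 0 := h3.ne_zero
  have : NeZero K := ⟨hK⟩
  have hc0 : c ≠ 0 := by rcases h5 with rfl | rfl | rfl <;> norm_num
  by_cases h2p : p = 2
  · subst h2p
    have hc1 : c ≠ 1 := by
      rintro rfl
      rw [h1, one_mul] at hpD
      rw [Nat.odd_iff] at h2
      omega
    refine ⟨1 + c / 2 * K, ?_, ?_⟩
    · have : D.natAbs / 2 = c / 2 * K := by
        rw [h1]
        rcases h5 with rfl | rfl | rfl
        · exact absurd rfl hc1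
        · omega
        · omega
      rw [this]
      exact Nat.add_mod_right _ _
    · rw [h7]
      have hg : g (1 + c / 2 * K) = -1 := by
        apply h6 hc1
        rw [Nat.odd_iff] at h2
        rcases h5 with rfl | rfl | rfl
        · exact absurd rfl hc1
        · omega
        · omega
      have hJ : jacobiSym ((1 + c / 2 * K : ℕ) : ℤ) K = 1 := by
        rw [← jacobiSym.one_left K]
        apply jacobiSym.mod_left'
        push_cast
        exact Int.add_mul_emod_self_right _ _ _
      rw [hg, hJ]; ring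
  · have hpK : p ∣ K := by
      rw [h1] at hpD
      rcases (Nat.Prime.dvd_mul hp).mp hpD with h | h
      · exfalso
        have : p ∣ 2 ^ 3 := by
          rcases h5 with rfl | rfl | rfl
          · exact h.trans (by norm_num)
          · exact h.trans (by norm_num)
          · exact h.trans (by norm_num)
        exact h2p ((Nat.prime_dvd_prime_iff_eq hp Nat.prime_two).mp (hp.dvd_of_dvd_pow this))
      · exact h
    obtain ⟨L, rfl⟩ := hpK
    have hL : L ≠ 0 := by rintro rfl; simp at hK
    have : NeZero L := ⟨hL⟩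
    have : NeZero p := ⟨hp.ne_zero⟩
    have : Fact p.Prime := ⟨hp⟩
    have hpL : Nat.Coprime p L := Nat.coprime_of_squarefree_mul h3
    have hpc : Nat.Coprime p c := by
      have h2c : Nat.Coprime p (2 ^ 3) :=
        Nat.Coprime.pow_right _ ((Nat.coprime_primes hp Nat.prime_two).mpr h2p)
      rcases h5 with rfl | rfl | rfl
      · exact Nat.coprime_one_right _
      · exact Nat.Coprime.coprime_dvd_right (by norm_num) h2c
      · exact Nat.Coprime.coprime_dvd_right (by norm_num) h2c
    have hdiv : D.natAbs / p = c * L := by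
      rw [h1]
      have : c * (p * L) = p * (c * L) := by ring
      rw [this, Nat.mul_div_cancel_left _ hp.pos]
    have hcop : Nat.Coprime p (c * L) := Nat.Coprime.mul_right hpc hpL
    -- a nonresidue
    obtain ⟨r, hr⟩ : ∃ r : ℕ, jacobiSym r p = -1 := by
      have hF : ringChar (ZMod p) ≠ 2 := by rw [ZMod.ringChar_zmod_n]; exact h2p
      obtain ⟨a, ha⟩ := quadraticChar_exists_neg_one hF
      refine ⟨a.val, ?_⟩
      rw [← jacobiSym.legendreSym.to_jacobiSym]
      unfold legendreSym
      have : (((a.val : ℕ) : ℤ) : ZMod p) = a := by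
        push_cast; exact ZMod.natCast_zmod_val a
      rw [this]; exact ha
    obtain ⟨n, hn1, hn2⟩ := Nat.chineseRemainder hcop r 1
    refine ⟨n, ?_, ?_⟩
    · rw [hdiv]; exact hn2
    · rw [h7]
      have hg : g n = 1 := by
        have h11 : n % c = 1 % c := by
          have : n ≡ 1 [MOD c] := Nat.ModEq.of_mul_right L hn2
          exact this
        rw [← h4.per n, h11, h4.per, h4.one]
      have hJ1 : jacobiSym n p = -1 := by
        rw [← hr]
        apply jacobiSym.mod_left'
        exact_mod_cast (hn1 : n % p = r % p)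
      have hJ2 : jacobiSym n L = 1 := by
        rw [← jacobiSym.one_left L]
        apply jacobiSym.mod_left'
        have : n ≡ 1 [MOD L] := Nat.ModEq.of_mul_left c hn2
        exact_mod_cast (this : n % L = 1 % L)
      rw [hg, jacobiSym.mul_right, hJ1, hJ2]; ring

theorem chi_isPrimitive (D : ℤ) [h : Fact (IsFund D)] : (chi D).IsPrimitive := by
  rw [DirichletCharacter.isPrimitive_def]
  by_contra hne
  have hN : D.natAbs ≠ 0 := NeZero.ne _
  have hdvd := DirichletCharacter.conductor_dvd_level (chi D)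
  obtain ⟨e, he⟩ := hdvd
  have he1 : e ≠ 1 := by
    rintro rfl
    exact hne (by rw [mul_one] at he; exact he.symm)
  obtain ⟨p, hp, hpe⟩ := Nat.exists_prime_and_dvd he1
  have hpD : p ∣ D.natAbs := by rw [he]; exact hpe.mul_left _
  obtain ⟨n, hn1, hn2⟩ := exists_witness h.out hp hpD
  obtain ⟨e', rfl⟩ := hpe
  have hdiv : (chi D).conductor ∣ D.natAbs / p := by
    refine ⟨e', ?_⟩
    have : D.natAbs = p * ((chi D).conductor * e') := he.trans (by ring)
    rw [Nat.div_eq_of_eq_mul_right hp.pos this]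
  have hf := DirichletCharacter.factorsThrough_conductor (chi D)
  rw [DirichletCharacter.factorsThrough_iff_ker_unitsMap hf.dvd] at hf
  have hunit : IsUnit (n : ZMod D.natAbs) := by
    by_contra hu
    have := (chi D).map_nonunit hu
    rw [chi_natCast, hn2] at this
    norm_num at this
  obtain ⟨u, hu⟩ := hunit
  have hker : u ∈ (ZMod.unitsMap (DirichletCharacter.conductor_dvd_level (chi D))).ker := by
    rw [MonoidHom.mem_ker]
    ext
    rw [ZMod.unitsMap_def, Units.coe_map, hu]
    simp only [MonoidHom.coe_coe, ZMod.castHom_apply, ZMod.cast_natCast (R := ZMod _)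
      (DirichletCharacter.conductor_dvd_level (chi D)), Units.val_one]
    have h12 : n ≡ 1 [MOD (chi D).conductor] := Nat.ModEq.of_dvd hdiv hn1
    have := (ZMod.natCast_eq_natCast_iff _ _ _).mpr h12
    simpa using this
  have h13 := hf hker
  rw [MonoidHom.mem_ker] at h13
  have h14 : chi D (u : ZMod D.natAbs) = 1 := by
    have := congrArg Units.val h13
    rw [MulChar.coe_toUnitHom] at this
    simpa using this
  rw [hu, chi_natCast, hn2] at h14
  norm_num at h14

theorem chi_ne_one (D : ℤ) [h : Fact (IsFund D)] : chi D ≠ 1 := by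
  intro h1
  have h2 := chi_isPrimitive D
  rw [h1, DirichletCharacter.isPrimitive_def, DirichletCharacter.conductor_one] at h2
  · obtain ⟨c, K, g, h1, _, _, _, _, _, _, h8, _⟩ := data h.out
    omega


section Gauss

open scoped ZMod

variable {N : ℕ} [NeZero N]

/-- The Gauss sum of a character with respect to `e(a/N)`. -/
noncomputable abbrev tau (χ : DirichletCharacter ℂ N) : ℂ := gaussSum χ ZMod.stdAddChar

/-- `∑_a χ(a) e(a b / N) = χ(b) τ(χ)` for a primitive real character. -/
theorem sum_mul_stdAddChar {χ : DirichletCharacter ℂ N} (hχ : χ.IsPrimitive) (hr : χ⁻¹ = χ)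
    (b : ZMod N) : ∑ a : ZMod N, χ a * ZMod.stdAddChar (a * b) = χ b * tau χ := by
  have h := gaussSum_mulShift_of_isPrimitive (e := ZMod.stdAddChar) hχ b
  rw [hr] at h
  rw [← h]
  unfold gaussSum
  refine Finset.sum_congr rfl fun a _ => ?_
  rw [AddChar.mulShift_apply, mul_comm b a]

theorem tau_sq {χ : DirichletCharacter ℂ N} (hχ : χ.IsPrimitive) (hr : χ⁻¹ = χ) :
    tau χ ^ 2 = χ (-1) * N := by
  have h1 : 𝓕 (χ : ZMod N → ℂ) = fun k => χ (-k) * tau χ := by
    ext k
    rw [hχ.fourierTransform_eq_inv_mul_gaussSum k, hr]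
  have h2 := ZMod.dft_dft (χ : ZMod N → ℂ)
  have h3 := congrFun h2 (-1)
  have h4 : 𝓕 (fun k : ZMod N => χ (-k) * tau χ) = fun k => (χ k * tau χ) * tau χ := by
    rw [ZMod.dft_mul_const]
    have h5 : 𝓕 (fun k : ZMod N => χ (-k)) = fun k => 𝓕 (χ : ZMod N → ℂ) (-k) :=
      ZMod.dft_comp_neg _
    rw [h5, h1]
    ext k
    simp
  rw [h1, h4] at h3
  simp only [neg_neg, map_one, smul_eq_mul, mul_one] at h3
  have h6 : χ (-1) * χ (-1) = 1 := by
    rw [← map_mul]; simp
  calc tau χ ^ 2 = χ (-1) * (χ (-1) * tau χ * tau χ) := by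
        rw [← mul_assoc, ← mul_assoc, h6]; ring
    _ = χ (-1) * N := by rw [h3]

theorem tau_ne_zero {χ : DirichletCharacter ℂ N} (hχ : χ.IsPrimitive) (hr : χ⁻¹ = χ) :
    tau χ ≠ 0 := by
  intro h0
  have h := tau_sq hχ hr
  rw [h0] at h
  have h6 : χ (-1) * χ (-1) = 1 := by
    rw [← map_mul]; simp
  have hN : (N : ℂ) ≠ 0 := Nat.cast_ne_zero.mpr (NeZero.ne N)
  have h7 : χ (-1) = 0 := by
    have : (0:ℂ) = χ (-1) * N := by rw [← h]; norm_num
    rcases mul_eq_zero.mp this.symm with h | h
    · exact h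
    · exact absurd h hN
  rw [h7] at h6
  norm_num at h6

/-- The expansion `χ(b) = τ(χ)⁻¹ ∑_a χ(a) e(a b / N)`. -/
theorem chi_eq_sum {χ : DirichletCharacter ℂ N} (hχ : χ.IsPrimitive) (hr : χ⁻¹ = χ)
    (b : ZMod N) : χ b = (tau χ)⁻¹ * ∑ a : ZMod N, χ a * ZMod.stdAddChar (a * b) := by
  rw [sum_mul_stdAddChar hχ hr, mul_comm (χ b), inv_mul_cancel_left₀ (tau_ne_zero hχ hr)]

end Gauss

/-- `τ(χ_D)² = sign(D) |D| = D`. -/
theorem tau_chi_sq (D : ℤ) [h : Fact (IsFund D)] : tau (chi D) ^ 2 = (D : ℂ) := by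
  rw [tau_sq (chi_isPrimitive D) (chi_inv D), chi_neg_one]
  have h1 : ((D.natAbs : ℕ) : ℂ) = ((D.natAbs : ℤ) : ℂ) := (Int.cast_natCast _).symm
  rw [h1, ← Int.cast_mul, Int.sign_mul_natAbs]

/-- The Kronecker symbol at an odd prime is the Legendre symbol. -/
theorem kron_prime (D : ℤ) (p : ℕ) [hp : Fact p.Prime] (h2 : p ≠ 2) :
    kron D p = legendreSym p D := by
  have h0 : p.factorization 2 = 0 := by
    rw [Nat.Prime.factorization hp.out, Finsupp.single_apply, if_neg h2]
  unfold kron
  rw [if_neg hp.out.ne_zero, h0, pow_zero, one_mul, pow_zero, Nat.div_one,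
    jacobiSym.legendreSym.to_jacobiSym]

theorem kron_two (D : ℤ) : kron D 2 = kron2 D := by
  have h0 : Nat.factorization 2 2 = 1 := by
    rw [Nat.Prime.factorization Nat.prime_two, Finsupp.single_eq_same]
  unfold kron
  rw [if_neg (by norm_num), h0, pow_one, pow_one]
  norm_num

theorem kron_mul {D : ℤ} (hD : IsFund D) (a b : ℕ) : kron D (a * b) = kron D a * kron D b :=
  (good_kron hD).mul a b

theorem natAbs_gt_one {D : ℤ} (hD : IsFund D) : 1 < D.natAbs := by
  obtain ⟨c, K, g, h1, _, _, _, _, _, _, h8, _⟩ := data hD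
  omega

end Pool.Agent.K4H4.Kron
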