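import Mathlib

/-!
Combinatorial core: a Liouville type identity on quadruples `(u, v, w, b)` with `u v + w b = N`.
-/

set_option autoImplicit false

namespace Pool.Agent.K4H4.Lambert

open Finset

/-- quadruples `(u, v, w, b)` of positive integers with `u v + w b = N`, `u, v` odd and `w` even -/
def Q (N : ℕ) : Finset (ℕ × ℕ × ℕ × ℕ) :=
  ((range (N + 1)) ×ˢ (range (N + 1)) ×ˢ (range (N + 1)) ×ˢ (range (N + 1))).filter
    fun x => x.1 * x.2.1 + x.2.2.1 * x.2.2.2 = N ∧ x.1 % 2 = 1 ∧ x.2.1 % 2 = 1 ∧ x.2.2.1 % 2 = 0 ∧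
      0 < x.2.2.1 ∧ 0 < x.2.2.2

theorem mem_Q {N u v w b : ℕ} : (u, v, w, b) ∈ Q N ↔
    u * v + w * b = N ∧ u % 2 = 1 ∧ v % 2 = 1 ∧ w % 2 = 0 ∧ 0 < w ∧ 0 < b := by
  unfold Q
  simp only [mem_filter, mem_product, mem_range, and_iff_right_iff_imp]
  rintro ⟨h, hu, hv, hw, hw0, hb0⟩
  have hu0 : 0 < u := by omega
  have hv0 : 0 < v := by omega
  have h1 : u ≤ u * v := Nat.le_mul_of_pos_right _ hv0
  have h2 : v ≤ u * v := Nat.le_mul_of_pos_left _ hu0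
  have h3 : w ≤ w * b := Nat.le_mul_of_pos_right _ hb0
  have h4 : b ≤ w * b := Nat.le_mul_of_pos_left _ hw0
  omega

/-- the sign `χ₋₄` of an odd number -/
def sg (u : ℕ) : ℤ := (-1) ^ (u / 2)

theorem sg_swap {u v : ℕ} (hu : u % 2 = 1) (hv : v % 2 = 1) (h : u * v % 4 = 3) :
    sg u = - sg v := by
  unfold sg
  obtain ⟨x, rfl⟩ : ∃ x, u = 2 * x + 1 := ⟨u / 2, by omega⟩
  obtain ⟨y, rfl⟩ : ∃ y, v = 2 * y + 1 := ⟨v / 2, by omega⟩
  have h1 : (2 * x + 1) * (2 * y + 1) = 4 * (x * y) + 2 * (x + y) + 1 := by ring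
  rw [h1] at h
  have h2 : (2 * x + 1) / 2 = x := by omega
  have h3 : (2 * y + 1) / 2 = y := by omega
  rw [h2, h3]
  have h4 : (x + y) % 2 = 1 := by omega
  rcases Nat.even_or_odd x with hx | hx
  · have hy : Odd y := by
      rw [Nat.odd_iff]; rw [Nat.even_iff] at hx; omega
    rw [hx.neg_one_pow, hy.neg_one_pow]; rfl
  · have hy : Even y := by
      rw [Nat.even_iff]; rw [Nat.odd_iff] at hx; omega
    rw [hx.neg_one_pow, hy.neg_one_pow]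

theorem prod_mod {N u v w b : ℕ} (hN : N % 4 = 3) (h : u * v + w * b = N) (hw : w % 2 = 0)
    (hb : b % 2 = 0) : u * v % 4 = 3 := by
  obtain ⟨x, rfl⟩ : ∃ x, w = 2 * x := ⟨w / 2, by omega⟩
  obtain ⟨y, rfl⟩ : ∃ y, b = 2 * y := ⟨b / 2, by omega⟩
  have h1 : 2 * x * (2 * y) = 4 * (x * y) := by ring
  omega

/-- `b` odd, `w < v` against `b` even, `u < b` -/
theorem O1_eq_E2 (N : ℕ) :
    ∑ x ∈ (Q N).filter (fun x => x.2.2.2 % 2 = 1 ∧ x.2.2.1 < x.2.1), sg x.1 =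
      ∑ x ∈ (Q N).filter (fun x => x.2.2.2 % 2 = 0 ∧ x.1 < x.2.2.2), sg x.1 := by
  refine Finset.sum_nbij' (fun x => (x.1, x.2.1 - x.2.2.1, x.2.2.1, x.2.2.2 + x.1))
    (fun x => (x.1, x.2.1 + x.2.2.1, x.2.2.1, x.2.2.2 - x.1)) ?_ ?_ ?_ ?_ ?_
  · rintro ⟨u, v, w, b⟩ hx
    simp only [mem_filter, mem_Q] at hx ⊢
    obtain ⟨⟨h, hu, hv, hw, hw0, hb0⟩, hb, hvw⟩ := hx
    refine ⟨⟨?_, hu, by omega, hw, hw0, by omega⟩, by omega, by omega⟩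
    obtain ⟨c, rfl⟩ : ∃ c, v = w + c := ⟨v - w, by omega⟩
    rw [Nat.add_sub_cancel_left, ← h]; ring
  · rintro ⟨u, v, w, b⟩ hx
    simp only [mem_filter, mem_Q] at hx ⊢
    obtain ⟨⟨h, hu, hv, hw, hw0, hb0⟩, hb, hvw⟩ := hx
    refine ⟨⟨?_, hu, by omega, hw, hw0, by omega⟩, by omega, by omega⟩
    obtain ⟨c, rfl⟩ : ∃ c, b = u + c := ⟨b - u, by omega⟩
    rw [Nat.add_sub_cancel_left, ← h]; ring
  · rintro ⟨u, v, w, b⟩ hx
    simp only [mem_filter, mem_Q] at hx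
    obtain ⟨⟨h, hu, hv, hw, hw0, hb0⟩, hb, hvw⟩ := hx
    simp only [Prod.mk.injEq, true_and]
    omega
  · rintro ⟨u, v, w, b⟩ hx
    simp only [mem_filter, mem_Q] at hx
    obtain ⟨⟨h, hu, hv, hw, hw0, hb0⟩, hb, hvw⟩ := hx
    simp only [Prod.mk.injEq, true_and]
    omega
  · rintro ⟨u, v, w, b⟩ hx
    rfl

theorem E0_zero {N : ℕ} (hN : N % 4 = 3) :
    ∑ x ∈ (Q N).filter (fun x => x.2.2.2 % 2 = 0), sg x.1 = 0 := by
  have h : ∑ x ∈ (Q N).filter (fun x => x.2.2.2 % 2 = 0), sg x.1 =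
      ∑ x ∈ (Q N).filter (fun x => x.2.2.2 % 2 = 0), -sg x.1 := by
    refine Finset.sum_nbij' (fun x => (x.2.1, x.1, x.2.2.1, x.2.2.2))
      (fun x => (x.2.1, x.1, x.2.2.1, x.2.2.2)) ?_ ?_ ?_ ?_ ?_
    · rintro ⟨u, v, w, b⟩ hx
      simp only [mem_filter, mem_Q] at hx ⊢
      obtain ⟨⟨h, hu, hv, hw, hw0, hb0⟩, hb⟩ := hx
      exact ⟨⟨by rw [mul_comm v u]; exact h, hv, hu, hw, hw0, hb0⟩, hb⟩
    · rintro ⟨u, v, w, b⟩ hx
      simp only [mem_filter, mem_Q] at hx ⊢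
      obtain ⟨⟨h, hu, hv, hw, hw0, hb0⟩, hb⟩ := hx
      exact ⟨⟨by rw [mul_comm v u]; exact h, hv, hu, hw, hw0, hb0⟩, hb⟩
    · rintro ⟨u, v, w, b⟩ hx
      rfl
    · rintro ⟨u, v, w, b⟩ hx
      rfl
    · rintro ⟨u, v, w, b⟩ hx
      simp only [mem_filter, mem_Q] at hx ⊢
      obtain ⟨⟨h, hu, hv, hw, hw0, hb0⟩, hb⟩ := hx
      exact sg_swap hu hv (prod_mod hN h hw hb)
  rw [Finset.sum_neg_distrib] at h
  omega

theorem E3_eq {N : ℕ} (hN : N % 4 = 3) :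
    ∑ x ∈ (Q N).filter (fun x => x.2.2.2 % 2 = 0 ∧ x.2.2.2 < x.1), sg x.1 =
      - ∑ x ∈ (Q N).filter (fun x => x.2.2.2 % 2 = 0 ∧ x.2.2.1 < x.2.1), sg x.1 := by
  rw [← Finset.sum_neg_distrib]
  refine Finset.sum_nbij' (fun x => (x.2.1, x.1, x.2.2.2, x.2.2.1))
    (fun x => (x.2.1, x.1, x.2.2.2, x.2.2.1)) ?_ ?_ ?_ ?_ ?_
  · rintro ⟨u, v, w, b⟩ hx
    simp only [mem_filter, mem_Q] at hx ⊢
    obtain ⟨⟨h, hu, hv, hw, hw0, hb0⟩, hb, hlt⟩ := hx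
    exact ⟨⟨by rw [mul_comm v u, mul_comm b w]; exact h, hv, hu, hb, hb0, hw0⟩, hw, hlt⟩
  · rintro ⟨u, v, w, b⟩ hx
    simp only [mem_filter, mem_Q] at hx ⊢
    obtain ⟨⟨h, hu, hv, hw, hw0, hb0⟩, hb, hlt⟩ := hx
    exact ⟨⟨by rw [mul_comm v u, mul_comm b w]; exact h, hv, hu, hb, hb0, hw0⟩, hw, hlt⟩
  · rintro ⟨u, v, w, b⟩ hx
    rfl
  · rintro ⟨u, v, w, b⟩ hx
    rfl
  · rintro ⟨u, v, w, b⟩ hx
    simp only [mem_filter, mem_Q] at hx ⊢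
    obtain ⟨⟨h, hu, hv, hw, hw0, hb0⟩, hb, hlt⟩ := hx
    exact sg_swap hu hv (prod_mod hN h hw hb)

/-- The core identity. -/
theorem core {N : ℕ} (hN : N % 4 = 3) :
    ∑ x ∈ (Q N).filter (fun x => x.2.2.1 < x.2.1), sg x.1 * (-1) ^ x.2.2.2 = 0 := by
  have hsplit : ∑ x ∈ (Q N).filter (fun x => x.2.2.1 < x.2.1), sg x.1 * (-1) ^ x.2.2.2 =
      ∑ x ∈ (Q N).filter (fun x => x.2.2.2 % 2 = 0 ∧ x.2.2.1 < x.2.1), sg x.1 -
      ∑ x ∈ (Q N).filter (fun x => x.2.2.2 % 2 = 1 ∧ x.2.2.1 < x.2.1), sg x.1 := by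
    rw [← Finset.sum_filter_add_sum_filter_not ((Q N).filter (fun x => x.2.2.1 < x.2.1))
      (fun x => x.2.2.2 % 2 = 0), sub_eq_add_neg, ← Finset.sum_neg_distrib]
    rw [Finset.filter_filter, Finset.filter_filter]
    congr 1
    · apply Finset.sum_congr
      · ext x; simp only [mem_filter]; tauto
      · rintro ⟨u, v, w, b⟩ hx
        simp only [mem_filter] at hx
        have : Even b := by rw [Nat.even_iff]; tauto
        simp only [this.neg_one_pow, mul_one]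
    · apply Finset.sum_congr
      · ext x; simp only [mem_filter]
        have : (x.2.2.2 % 2 = 1) ↔ ¬ (x.2.2.2 % 2 = 0) := by omega
        rw [this]; tauto
      · rintro ⟨u, v, w, b⟩ hx
        simp only [mem_filter] at hx
        have : Odd b := by rw [Nat.odd_iff]; tauto
        simp only [this.neg_one_pow]; ring
  have h2 : ∑ x ∈ (Q N).filter (fun x => x.2.2.2 % 2 = 0 ∧ x.1 < x.2.2.2), sg x.1 +
      ∑ x ∈ (Q N).filter (fun x => x.2.2.2 % 2 = 0 ∧ x.2.2.2 < x.1), sg x.1 = 0 := by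
    rw [← E0_zero hN, ← Finset.sum_filter_add_sum_filter_not ((Q N).filter (fun x => x.2.2.2 % 2 = 0))
      (fun x => x.1 < x.2.2.2), Finset.filter_filter, Finset.filter_filter]
    congr 1
    apply Finset.sum_congr _ (fun _ _ => rfl)
    ext ⟨u, v, w, b⟩
    simp only [mem_filter, mem_Q]
    constructor
    · rintro ⟨h1, h2, h3⟩; exact ⟨h1, h2, by omega⟩
    · rintro ⟨h1, h2, h3⟩; refine ⟨h1, h2, ?_⟩; omega
  rw [hsplit, O1_eq_E2]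
  rw [E3_eq hN] at h2
  linarith

end Pool.Agent.K4H4.Lambert
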