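import Mathlib
import Pool.Agent.K4H4.LambertComb

/-!
Analytic part: the double Lambert series as an absolutely convergent fourfold series.
-/

set_option autoImplicit false

namespace Pool.Agent.K4H4.Lambert

open Finset

/-- the exponent -/
def E (x : (ℕ × ℕ) × (ℕ × ℕ)) : ℕ :=
  2 * (x.1.1 + 1) * (x.1.2 + 1) + (x.1.1 + 1) + (2 * x.1.1 + 1) * x.2.1 + (x.1.2 + 1) * x.2.2

/-- the sign -/
def s (x : (ℕ × ℕ) × (ℕ × ℕ)) : ℤ := (-1) ^ (x.1.1 + 1 + x.2.2)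

/-- the term of the fourfold series -/
noncomputable def T (q : ℂ) (x : (ℕ × ℕ) × (ℕ × ℕ)) : ℂ := (s x : ℂ) * q ^ E x

/-- the term of the double series -/
noncomputable def term (q : ℂ) (p : ℕ × ℕ) : ℂ :=
  (-q) ^ (2 * (p.1 + 1) * (p.2 + 1) + (p.1 + 1)) / ((1 + q ^ (p.2 + 1)) * (1 - q ^ (2 * p.1 + 1)))

theorem E_ge (x : (ℕ × ℕ) × (ℕ × ℕ)) : x.1.1 + x.1.2 + (x.2.1 + x.2.2) ≤ E x := by
  obtain ⟨⟨m, n⟩, a, b⟩ := x
  unfold E
  dsimp only
  nlinarith [Nat.zero_le (m * n), Nat.zero_le (m * a), Nat.zero_le (n * b)]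

theorem summable_T {q : ℂ} (hq : ‖q‖ < 1) : Summable (T q) := by
  have hg : Summable (fun n : ℕ => ‖q‖ ^ n) := summable_geometric_of_lt_one (norm_nonneg _) hq
  have h2 : Summable (fun p : ℕ × ℕ => ‖q‖ ^ p.1 * ‖q‖ ^ p.2) :=
    hg.mul_of_nonneg hg (fun _ => pow_nonneg (norm_nonneg _) _) (fun _ => pow_nonneg (norm_nonneg _) _)
  have h4 : Summable (fun x : (ℕ × ℕ) × (ℕ × ℕ) =>
      (‖q‖ ^ x.1.1 * ‖q‖ ^ x.1.2) * (‖q‖ ^ x.2.1 * ‖q‖ ^ x.2.2)) :=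
    h2.mul_of_nonneg h2 (fun _ => mul_nonneg (pow_nonneg (norm_nonneg _) _) (pow_nonneg (norm_nonneg _) _))
      (fun _ => mul_nonneg (pow_nonneg (norm_nonneg _) _) (pow_nonneg (norm_nonneg _) _))
  refine Summable.of_norm_bounded h4 fun x => ?_
  have h1 : ‖T q x‖ = ‖q‖ ^ E x := by
    unfold T s
    rw [norm_mul, norm_pow]
    push_cast
    rw [norm_pow, norm_neg, norm_one, one_pow, one_mul]
  rw [h1, ← pow_add, ← pow_add, ← pow_add]
  exact pow_le_pow_of_le_one (norm_nonneg _) hq.le (E_ge x)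

theorem HasSum.congr_fun' {ι : Type} {f g : ι → ℂ} {c : ℂ} (h : HasSum f c) (hfg : ∀ i, g i = f i) :
    HasSum g c := by
  have : g = f := funext hfg
  rw [this]; exact h

theorem hasSum_term {q : ℂ} (hq : ‖q‖ < 1) (p : ℕ × ℕ) :
    HasSum (fun ab : ℕ × ℕ => T q (p, ab)) (term q p) := by
  obtain ⟨m, n⟩ := p
  have hA : ‖q ^ (2 * m + 1)‖ < 1 := by
    rw [norm_pow]; exact pow_lt_one₀ (norm_nonneg _) hq (by omega)
  have hB : ‖-(q ^ (n + 1))‖ < 1 := by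
    rw [norm_neg, norm_pow]; exact pow_lt_one₀ (norm_nonneg _) hq (by omega)
  have h1 := hasSum_geometric_of_norm_lt_one hA
  have h2 := hasSum_geometric_of_norm_lt_one hB
  have hs1 : Summable (fun k : ℕ => ‖(q ^ (2 * m + 1)) ^ k‖) := by
    simp only [norm_pow]
    rw [norm_pow] at hA
    exact summable_geometric_of_lt_one (by positivity) hA
  have hs2 : Summable (fun k : ℕ => ‖(-(q ^ (n + 1))) ^ k‖) := by
    simp only [norm_pow, norm_neg]
    rw [norm_neg, norm_pow] at hB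
    exact summable_geometric_of_lt_one (by positivity) hB
  have h3 := h1.mul h2 (summable_mul_of_summable_norm hs1 hs2)
  have h4 := h3.mul_left ((-q) ^ (2 * (m + 1) * (n + 1) + (m + 1)))
  have e1 : term q (m, n) = (-q) ^ (2 * (m + 1) * (n + 1) + (m + 1)) *
      ((1 - q ^ (2 * m + 1))⁻¹ * (1 - -(q ^ (n + 1)))⁻¹) := by
    unfold term
    rw [sub_neg_eq_add, div_eq_mul_inv, mul_inv]; ring
  rw [e1]
  refine HasSum.congr_fun' h4 fun ab => ?_
  obtain ⟨a, b⟩ := ab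
  unfold T s E
  dsimp only
  have e2 : (-q) ^ (2 * (m + 1) * (n + 1) + (m + 1)) =
      (-1) ^ (m + 1) * q ^ (2 * (m + 1) * (n + 1) + (m + 1)) := by
    rw [neg_pow q, pow_add (-1 : ℂ), mul_assoc 2, pow_mul (-1 : ℂ) 2]
    norm_num
  have e3 : (-(q ^ (n + 1))) ^ b = (-1) ^ b * q ^ ((n + 1) * b) := by
    rw [neg_pow, pow_mul]
  rw [e2, e3, ← pow_mul]
  push_cast
  ring

/-- the double series is the fourfold series -/
theorem tsum_term {q : ℂ} (hq : ‖q‖ < 1) : ∑' p : ℕ × ℕ, term q p = ∑' x, T q x := by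
  rw [(summable_T hq).tsum_prod]
  exact tsum_congr fun p => ((hasSum_term hq p).tsum_eq).symm

/-- The fibres of the exponent. -/
def fibEquiv (N e : ℕ) (h : N + 1 = 2 * e) :
    {x : (ℕ × ℕ) × (ℕ × ℕ) // E x = e} ≃
      {y // y ∈ (Q N).filter (fun y => y.2.2.1 < y.2.1)} where
  toFun x := ⟨(2 * x.1.1.1 + 1, 2 * (x.1.1.2 + 1 + x.1.2.1) + 1, 2 * (x.1.1.2 + 1), x.1.2.2 + 1), by
    obtain ⟨⟨⟨m, n⟩, a, b⟩, hx⟩ := x
    unfold E at hx
    dsimp only at hx ⊢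
    rw [mem_filter, mem_Q]
    refine ⟨⟨?_, by omega, by omega, by omega, by omega, by omega⟩, by dsimp only; omega⟩
    have h2 : (2 * m + 1) * (2 * (n + 1 + a) + 1) + 2 * (n + 1) * (b + 1) + 1 =
      2 * (2 * (m + 1) * (n + 1) + (m + 1) + (2 * m + 1) * a + (n + 1) * b) := by ring
    rw [hx] at h2
    omega⟩
  invFun y := ⟨((y.1.1 / 2, y.1.2.2.1 / 2 - 1), (y.1.2.1 / 2 - y.1.2.2.1 / 2, y.1.2.2.2 - 1)), by
    obtain ⟨⟨u, v, w, b⟩, hy⟩ := y
    rw [mem_filter, mem_Q] at hy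
    obtain ⟨⟨h1, hu, hv, hw, hw0, hb0⟩, hlt⟩ := hy
    unfold E
    dsimp only at hlt ⊢
    obtain ⟨m, rfl⟩ : ∃ m, u = 2 * m + 1 := ⟨u / 2, by omega⟩
    obtain ⟨n, rfl⟩ : ∃ n, w = 2 * (n + 1) := ⟨w / 2 - 1, by omega⟩
    obtain ⟨a, rfl⟩ : ∃ a, v = 2 * (n + 1 + a) + 1 := ⟨v / 2 - (n + 1), by omega⟩
    obtain ⟨c, rfl⟩ : ∃ c, b = c + 1 := ⟨b - 1, by omega⟩
    have e1 : (2 * m + 1) / 2 = m := by omega
    have e2 : 2 * (n + 1) / 2 - 1 = n := by omega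
    have e3 : (2 * (n + 1 + a) + 1) / 2 - 2 * (n + 1) / 2 = a := by omega
    have e4 : c + 1 - 1 = c := by omega
    rw [e1, e2, e3, e4]
    have h2 : (2 * m + 1) * (2 * (n + 1 + a) + 1) + 2 * (n + 1) * (c + 1) + 1 =
      2 * (2 * (m + 1) * (n + 1) + (m + 1) + (2 * m + 1) * a + (n + 1) * c) := by ring
    omega⟩
  left_inv x := by
    obtain ⟨⟨⟨m, n⟩, a, b⟩, hx⟩ := x
    simp only [Subtype.mk.injEq, Prod.mk.injEq]
    omega
  right_inv y := by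
    obtain ⟨⟨u, v, w, b⟩, hy⟩ := y
    rw [mem_filter, mem_Q] at hy
    obtain ⟨⟨h1, hu, hv, hw, hw0, hb0⟩, hlt⟩ := hy
    simp only [Subtype.mk.injEq, Prod.mk.injEq]
    dsimp only at hlt
    omega

/-- for even exponents the coefficient vanishes -/
theorem coeff_even {e : ℕ} (he : Even e) :
    ∑' x : {x : (ℕ × ℕ) × (ℕ × ℕ) // E x = e}, (s x.1 : ℂ) = 0 := by
  rcases Nat.eq_zero_or_pos e with rfl | hpos
  · have : IsEmpty {x : (ℕ × ℕ) × (ℕ × ℕ) // E x = 0} := by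
      refine ⟨fun x => ?_⟩
      have := x.2
      unfold E at this
      omega
    exact tsum_empty
  · obtain ⟨k, hk⟩ := he
    have h : (2 * e - 1) + 1 = 2 * e := by omega
    have hN : (2 * e - 1) % 4 = 3 := by omega
    have h1 := (fibEquiv (2 * e - 1) e h).tsum_eq
      (fun y => ((sg y.1.1 * (-1) ^ y.1.2.2.2 : ℤ) : ℂ))
    have h2 : ∀ x : {x : (ℕ × ℕ) × (ℕ × ℕ) // E x = e}, (s x.1 : ℂ) =
        ((sg (fibEquiv (2 * e - 1) e h x).1.1 *
          (-1) ^ (fibEquiv (2 * e - 1) e h x).1.2.2.2 : ℤ) : ℂ) := by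
      rintro ⟨⟨⟨m, n⟩, a, b⟩, hx⟩
      unfold s fibEquiv sg
      dsimp only [Equiv.coe_fn_mk]
      have e1 : (2 * m + 1) / 2 = m := by omega
      rw [e1]
      congr 1
      ring
    rw [tsum_congr h2, h1]
    rw [Finset.tsum_subtype ((Q (2 * e - 1)).filter (fun y => y.2.2.1 < y.2.1))
      (fun y => ((sg y.1 * (-1) ^ y.2.2.2 : ℤ) : ℂ))]
    have h3 := core hN
    rw [← Int.cast_sum, h3, Int.cast_zero]

theorem odd_fun {q : ℂ} (hq : ‖q‖ < 1) : ∑' p : ℕ × ℕ, term (-q) p = - ∑' p : ℕ × ℕ, term q p := by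
  have hq' : ‖-q‖ < 1 := by rwa [norm_neg]
  rw [tsum_term hq, tsum_term hq', eq_neg_iff_add_eq_zero,
    ← (summable_T hq').tsum_add (summable_T hq)]
  have hs : Summable (fun x => T (-q) x + T q x) := (summable_T hq').add (summable_T hq)
  have h1 := hs.hasSum.tsum_fiberwise E
  rw [← h1.tsum_eq]
  have h2 : ∀ e : ℕ, ∑' x : ↑(E ⁻¹' {e}), (T (-q) x.1 + T q x.1) = 0 := by
    intro e
    rcases Nat.even_or_odd e with he | he
    · have h3 : ∀ x : ↑(E ⁻¹' {e}), T (-q) x.1 + T q x.1 = (s x.1 : ℂ) * (2 * q ^ e) := by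
        rintro ⟨x, hx⟩
        have hx' : E x = e := hx
        unfold T
        dsimp only
        rw [hx', he.neg_pow]; ring
      rw [tsum_congr h3, tsum_mul_right]
      have h4 : ∑' x : ↑(E ⁻¹' {e}), (s x.1 : ℂ) = 0 := coeff_even he
      rw [h4, zero_mul]
    · have h3 : ∀ x : ↑(E ⁻¹' {e}), T (-q) x.1 + T q x.1 = 0 := by
        rintro ⟨x, hx⟩
        have hx' : E x = e := hx
        unfold T
        dsimp only
        rw [hx', he.neg_pow]; ring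
      rw [tsum_congr h3, tsum_zero]
  rw [tsum_congr h2, tsum_zero]

end Pool.Agent.K4H4.Lambert
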