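import Pool.Agent.K4H40.NS.Spec

set_option autoImplicit false

namespace Pool.Agent.K4H40.NS

open MvPolynomial Module

theorem d3_fin {n : ℕ} {K : Type} [Field K] {d : ℕ} {S : Submodule K (R n K)}
    (h : S ≤ hs n K d) : FiniteDimensional K S := by
  haveI : FiniteDimensional K (hs n K d) :=
    Module.Finite.iff_fg.mpr (homogeneousSubmodule_fg (Fin n) K d)
  exact Submodule.finiteDimensional_of_le h

theorem d3_mul {n : ℕ} {K : Type} [Field K] {i j d : ℕ} {a b : R n K}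
    (ha : a ∈ hs n K i) (hb : b ∈ hs n K j) (hij : i + j = d) : a * b ∈ hs n K d := by
  have h1 : a.IsHomogeneous i := ha
  have h2 : b.IsHomogeneous j := hb
  subst hij
  exact h1.mul h2

theorem d3_P_le {n k : ℕ} {K : Type} [Field K] {I : Ideal (R n K)} (s : Sys n k K I) :
    s.P ≤ s.Jd (k + 2) := by
  unfold Sys.P RI Sys.Th
  refine sup_le (Submodule.span_le.2 ?_) (Submodule.span_le.2 ?_)
  · rintro _ ⟨x, hx, f, hf, rfl⟩
    refine Submodule.mem_inf.2 ⟨?_, d3_mul hx hf.2 (by omega)⟩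
    show x * f ∈ s.J
    exact Ideal.mul_mem_left _ _ (Ideal.mem_sup_left hf.1)
  · rintro _ ⟨i, f, hf, rfl⟩
    refine Submodule.mem_inf.2 ⟨?_, d3_mul (s.θ_lin i) hf (by omega)⟩
    show s.θ i * f ∈ s.J
    exact Ideal.mul_mem_right _ _ (Ideal.mem_sup_right (Ideal.subset_span ⟨i, rfl⟩))

theorem d3_hs_le {n k : ℕ} {K : Type} [Field K] {I : Ideal (R n K)} (s : Sys n k K I)
    (hphi : ∀ f ∈ hs n K (k + 1), ∃ a ∈ hs n K k, f - s.ω * a ∈ s.J)
    (hdec : s.Jd (k + 1) = Id I (k + 1) ⊔ s.Th k) :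
    hs n K (k + 2) ≤ (hs n K (k + 1)).map (LinearMap.mulLeft K s.ω) ⊔ s.P := by
  have e0 : hs n K (k + 2) = hs n K 1 * hs n K (k + 1) := by
    have h1 := homogeneousSubmodule_one_pow (σ := Fin n) (R := K) (n := k + 2)
    have h2 := homogeneousSubmodule_one_pow (σ := Fin n) (R := K) (n := k + 1)
    show homogeneousSubmodule (Fin n) K (k + 2)
      = homogeneousSubmodule (Fin n) K 1 * homogeneousSubmodule (Fin n) K (k + 1)
    rw [← h1, ← h2, ← pow_succ']
  rw [e0]
  refine Submodule.mul_le.2 ?_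
  intro x hx f hf
  obtain ⟨a, ha, hj⟩ := hphi f hf
  have hj1 : f - s.ω * a ∈ s.Jd (k + 1) :=
    Submodule.mem_inf.2 ⟨hj, Submodule.sub_mem _ hf (d3_mul s.ω_lin ha (by omega))⟩
  rw [hdec] at hj1
  have hcl : Id I (k + 1) ⊔ s.Th k ≤ s.P.comap (LinearMap.mulLeft K x) := by
    refine sup_le ?_ (Submodule.span_le.2 ?_)
    · intro j hj
      exact Submodule.mem_sup_left (Submodule.subset_span ⟨x, hx, j, hj, rfl⟩)
    · rintro _ ⟨i, g, hg, rfl⟩
      show x * (s.θ i * g) ∈ s.P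
      rw [mul_left_comm]
      exact Submodule.mem_sup_right (Submodule.subset_span ⟨i, x * g, d3_mul hx hg (by omega), rfl⟩)
  have hx2 : x * (f - s.ω * a) ∈ s.P := hcl hj1
  have e : x * f = s.ω * (x * a) + x * (f - s.ω * a) := by ring
  rw [e]
  exact Submodule.add_mem_sup ⟨x * a, d3_mul hx ha (by omega), rfl⟩ hx2

theorem d3 : StD3 := by
  intro n k K _ I s hphi hdec
  have hP := d3_P_le s
  have hPJ : ∀ p ∈ s.P, p ∈ s.J := fun p hp => (Submodule.mem_inf.1 (hP hp)).1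
  set W := s.U.map (LinearMap.mulLeft K s.ω) with hWdef
  have hWJ : W ≤ s.Jd (k + 2) := by
    rintro _ ⟨h, hh, rfl⟩
    have h1 := (Submodule.mem_inf.1 hh).1
    have h2 := (Submodule.mem_inf.1 hh).2
    exact Submodule.mem_inf.2 ⟨h1, d3_mul s.ω_lin h2 (by omega)⟩
  have hW : W ⊔ s.P = s.Jd (k + 2) := by
    refine le_antisymm (sup_le hWJ hP) ?_
    intro F hF
    have hF2 := (Submodule.mem_inf.1 hF).2
    have hF1 := (Submodule.mem_inf.1 hF).1
    obtain ⟨w, ⟨h, hh, rfl⟩, p, hp, rfl⟩ := Submodule.mem_sup.1 (d3_hs_le s hphi hdec hF2)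
    refine Submodule.add_mem_sup ⟨h, Submodule.mem_inf.2 ⟨?_, hh⟩, rfl⟩ hp
    show s.ω * h ∈ s.J
    have h3 : s.ω * h + p ∈ s.J := hF1
    exact (Submodule.add_mem_iff_left _ (hPJ p hp)).1 h3
  have hI : W ⊓ s.P = s.KP.map (LinearMap.mulLeft K s.ω) := by
    apply le_antisymm
    · rintro _ ⟨⟨h, hh, rfl⟩, hp⟩
      exact ⟨h, Submodule.mem_inf.2 ⟨hp, (Submodule.mem_inf.1 hh).2⟩, rfl⟩
    · rintro _ ⟨h, hh, rfl⟩
      have h1 := (Submodule.mem_inf.1 hh).1
      have h2 := (Submodule.mem_inf.1 hh).2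
      exact ⟨⟨h, Submodule.mem_inf.2 ⟨hPJ _ h1, h2⟩, rfl⟩, h1⟩
  haveI : FiniteDimensional K W := d3_fin (d := k + 2) (hWJ.trans inf_le_right)
  haveI : FiniteDimensional K s.P := d3_fin (d := k + 2) (hP.trans inf_le_right)
  have key := Submodule.finrank_sup_add_finrank_inf_eq W s.P
  rw [hW, hI] at key
  by_cases hω : s.ω = 0
  · have hU : s.U = s.KP := by
      apply le_antisymm
      · intro h hh
        refine Submodule.mem_inf.2 ⟨?_, (Submodule.mem_inf.1 hh).2⟩
        show s.ω * h ∈ s.P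
        rw [hω, zero_mul]; exact Submodule.zero_mem _
      · intro h hh
        exact Submodule.mem_inf.2 ⟨hPJ _ (Submodule.mem_inf.1 hh).1, (Submodule.mem_inf.1 hh).2⟩
    have hW0 : W = ⊥ := by
      rw [hWdef, eq_bot_iff]
      rintro _ ⟨h, _, rfl⟩
      show s.ω * h ∈ (⊥ : Submodule K (R n K))
      rw [hω, zero_mul]; exact Submodule.zero_mem _
    rw [hU, ← hW, hW0, bot_sup_eq]
    ring
  · have hinj : Function.Injective (LinearMap.mulLeft K s.ω) := by
      intro a b hab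
      exact mul_left_cancel₀ hω hab
    have e1 : finrank K W = finrank K s.U :=
      (Submodule.equivMapOfInjective _ hinj s.U).finrank_eq.symm
    have e2 : finrank K (s.KP.map (LinearMap.mulLeft K s.ω)) = finrank K s.KP :=
      (Submodule.equivMapOfInjective _ hinj s.KP).finrank_eq.symm
    rw [e1, e2] at key
    exact key

end Pool.Agent.K4H40.NS
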